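import Pool.Agent.NekOk.Final
import Pool.Agent.NekOk.HookFinal

/-!
# Unimodality of the Nekrasov–Okounkov polynomials

For every `n ≥ 1` the coefficients of
`P_n(t) = ∑_{λ ⊢ n} ∏_{u ∈ λ} (h_u² + t)/h_u²` form a unimodal sequence.

The proof has three parts:
* `Pool.Agent.NekOk.hookPoly_eq` (the Nekrasov–Okounkov formula, proved from scratch) and
  `Pool.Agent.NekOk.isNO_P` give two recursions for the coefficients;
* for `n ≥ 6400` an explicit saddle point estimate (`Pool.Agent.NekOk.Core`) shows log-concavity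
  up to index `⌈1.05 √n⌉` and decrease from there on;
* for `n < 6400` a kernel computation in interval arithmetic (`Pool.Agent.NekOk.SmallRun`).
-/

open Finset Polynomial

namespace Pool.Agent.Results.MP_8edb34_co.Unimodal

/-- The `i`-th part (`i = 0, 1, 2, …`) of the partition `p` of `n`, the parts being listed in
weakly decreasing order; it is `0` if `p` has at most `i` parts. -/
def row {n : ℕ} (p : n.Partition) (i : ℕ) : ℕ := (p.parts.sort (· ≥ ·)).getD i 0

/-- The `j`-th part (`j = 0, 1, 2, …`) of the conjugate partition: the number of parts of `p`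
that are larger than `j`. -/
def col {n : ℕ} (p : n.Partition) (j : ℕ) : ℕ := (p.parts.filter (j < ·)).card

/-- The cells `(i, j)` of the Young diagram of `p`, rows and columns numbered from `0`. -/
def cells {n : ℕ} (p : n.Partition) : Finset (ℕ × ℕ) :=
  (range n ×ˢ range n).filter (fun u => u.2 < row p u.1)

/-- The hook length of the cell `(i, j)`. With rows and columns numbered from `0` it is
`λ_i + λ'_j - i - j - 1`, where `λ'` is the conjugate partition. -/
def hook {n : ℕ} (p : n.Partition) (u : ℕ × ℕ) : ℕ := row p u.1 + col p u.2 - u.1 - u.2 - 1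

/-- The Nekrasov–Okounkov polynomial
`P_n(t) = ∑_{λ ⊢ n} ∏_{u ∈ λ} (h_u² + t)/h_u²` as a polynomial with rational coefficients in the
variable `t = X`. -/
noncomputable def P (n : ℕ) : ℚ[X] :=
  ∑ p : n.Partition, ∏ u ∈ cells p, (C (((hook p u : ℚ) ^ 2)⁻¹) * (C ((hook p u : ℚ) ^ 2) + X))

/-- The finite sequence `a 0, a 1, …, a n` is unimodal: `a 0 ≤ ⋯ ≤ a m ≥ ⋯ ≥ a n` for
some `m ≤ n`. -/
def IsUnimodal (n : ℕ) (a : ℕ → ℚ) : Prop :=
  ∃ m ≤ n, (∀ i, i < m → a i ≤ a (i + 1)) ∧ (∀ i, m ≤ i → i < n → a (i + 1) ≤ a i)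

/-- **Main result.** For every `n ≥ 1` the coefficient sequence `(a_{n,0}, …, a_{n,n})` of the
Nekrasov–Okounkov polynomial `P_n(t)` is unimodal. -/
theorem result (n : ℕ) (_hn : 1 ≤ n) : IsUnimodal n (fun k => (P n).coeff k) := by
  have hP : P n = Pool.Agent.NekOk.P n := Pool.Agent.NekOk.hookPoly_eq n
  rw [hP]
  obtain ⟨m, h1, h2⟩ := Pool.Agent.NekOk.unimodal Pool.Agent.NekOk.isNO_P n
  refine ⟨min m n, min_le_right _ _, fun i hi => ?_, fun i hi hin => ?_⟩
  · have := h1 i (lt_of_lt_of_le hi (min_le_left _ _))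
    exact_mod_cast this
  · have := h2 i (by omega)
    exact_mod_cast this

end Pool.Agent.Results.MP_8edb34_co.Unimodal
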